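import Mathlib
import Pool.Agent.Zk12.HD.Stm
import Pool.Agent.Zk95.GT.Star
import Pool.Agent.N530.LS.A2
import Pool.Agent.W552.Emb
import Pool.Agent.Zk81.HT.EmbCore

/-!
# `Star` for finitely generated fields (project HD, part STARF)
-/

set_option autoImplicit false
set_option linter.all false

namespace Pool.Agent.Zk26.HD

open Pool.Agent.Zk12.FG Pool.Agent.Zk12.GT Pool.Agent.Zk95.GT Pool.Agent.Zk12.HD

/-- embeddings of a finitely generated field in `ℚ_p`, `p` large, at which the elements of a given finite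
set are units -/
theorem unitF (k : Type) [Field k] [CharZero k] (hk : (⊤ : IntermediateField ℚ k).FG)
    (S : Finset k) (hS : 0 ∉ S) (N : ℕ) :
    ∃ (p : ℕ) (_ : Fact p.Prime) (φ : k →+* ℚ_[p]), N < p ∧ ∀ s ∈ S, ‖φ s‖ = 1 := by
  classical
  obtain ⟨G, hG⟩ := hk
  haveI : Countable k := Pool.Agent.Zk81.HT.countable_fg k (G : Set k) G.finite_toSet hG
  obtain ⟨ι⟩ := Pool.Agent.W552.exists_hom_complex k
  obtain ⟨p, hp, hN, σ, hσ⟩ := Pool.Agent.N530.LS.stmA2 ((G ∪ S).image ι) N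
  have hmem : ∀ x : k, ι x ∈ Subfield.closure (((G ∪ S).image ι : Finset ℂ) : Set ℂ) := by
    intro x
    have hx : x ∈ IntermediateField.adjoin ℚ (G : Set k) := by rw [hG]; trivial
    induction hx using IntermediateField.adjoin_induction with
    | mem y hy =>
      apply Subfield.subset_closure
      rw [Finset.coe_image]
      exact ⟨y, by rw [Finset.coe_union]; exact Or.inl hy, rfl⟩
    | algebraMap q =>
      rw [eq_ratCast, map_ratCast]
      exact SubfieldClass.ratCast_mem _ q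
    | add y z _ _ hy hz => rw [map_add]; exact add_mem hy hz
    | inv y _ hy => rw [map_inv₀]; exact inv_mem hy
    | mul y z _ _ hy hz => rw [map_mul]; exact mul_mem hy hz
  refine ⟨p, hp, σ.comp (ι.codRestrict (Subfield.closure (((G ∪ S).image ι : Finset ℂ) : Set ℂ))
    hmem), hN, fun s hs => ?_⟩
  refine hσ ⟨ι s, hmem s⟩ ?_ ?_
  · exact Finset.mem_image_of_mem ι (Finset.mem_union_right _ hs)
  · intro h0
    apply hS
    have h1 : ι s = 0 := h0
    rw [map_eq_zero] at h1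
    exact h1 ▸ hs

/-- **part STARF** -/
theorem starF : Pool.Agent.Zk12.HD.S_STARF := by
  classical
  intro k _ _ hk κ _ _ hfd a b l hab hal hbl
  obtain ⟨Z, hZ0, hZ⟩ := class_fin (κ := κ) hfd
  have hab' : a - b ≠ 0 := sub_ne_zero.2 hab
  have hal' : a - l ≠ 0 := sub_ne_zero.2 hal
  have hbl' : b - l ≠ 0 := sub_ne_zero.2 hbl
  set S : Finset k := insert (a - b) (insert (a - l) (insert (b - l) Z)) with hS
  have hS0 : (0 : k) ∉ S := by
    simp only [hS, Finset.mem_insert, not_or]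
    exact ⟨hab'.symm, hal'.symm, hbl'.symm, hZ0⟩
  obtain ⟨p, hp, φ, -, hφ⟩ := unitF k hk S hS0 0
  obtain ⟨q, hq, ψ, hpq, hψ⟩ := unitF k hk S hS0 p
  have hne : p ≠ q := by omega
  have hcop : Nat.Coprime (p ^ 2) (q ^ 2) :=
    Nat.Coprime.pow _ _ ((Nat.coprime_primes hp.out hq.out).2 hne)
  obtain ⟨u, hu1, hu2⟩ := Nat.chineseRemainder hcop p (1 + q)
  -- the norms
  have hpu : ∃ m : ℤ, (u : ℤ) = p * (1 + p * m) := by
    have h1 : (p : ℤ) ^ 2 ∣ (u : ℤ) - p := by
      have h2 := (Nat.modEq_iff_dvd.1 hu1.symm)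
      push_cast at h2
      exact h2
    obtain ⟨m, hm⟩ := h1
    exact ⟨m, by linear_combination hm⟩
  have hqu : ∃ m : ℤ, 1 - (u : ℤ) = q * (-1 + q * m) := by
    have h1 : (q : ℤ) ^ 2 ∣ (1 + q : ℤ) - u := by
      have h2 := (Nat.modEq_iff_dvd.1 hu2)
      push_cast at h2
      exact h2
    obtain ⟨m, hm⟩ := h1
    exact ⟨m, by linear_combination hm⟩
  have hnp : ‖((u : ℤ) : ℚ_[p])‖ = (p : ℝ)⁻¹ := by
    obtain ⟨m, hm⟩ := hpu
    rw [hm]
    push_cast
    have h1 : ‖((1 + p * m : ℤ) : ℚ_[p])‖ = 1 := by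
      rw [Padic.norm_intCast_eq_one_iff]
      exact ⟨1, -m, by ring⟩
    push_cast at h1
    rw [norm_mul, h1, mul_one, Padic.norm_p]
  have hnq : ‖((1 - u : ℤ) : ℚ_[q])‖ = (q : ℝ)⁻¹ := by
    obtain ⟨m, hm⟩ := hqu
    rw [hm]
    push_cast
    have h1 : ‖((-1 + q * m : ℤ) : ℚ_[q])‖ = 1 := by
      rw [Padic.norm_intCast_eq_one_iff]
      exact ⟨-1, m, by ring⟩
    push_cast at h1
    rw [norm_mul, h1, mul_one, Padic.norm_p]
  have hmemab : a - b ∈ S := by simp [hS]
  have hmemal : a - l ∈ S := by simp [hS]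
  have hmemZ : ∀ z ∈ Z, z ∈ S := fun z hz => by simp [hS, hz]
  refine ⟨a + (l - a) * (u : k), ?_, ?_⟩
  · intro hsq
    have hw : ‖φ ((a - (a + (l - a) * (u : k))) * (b - (a + (l - a) * (u : k))))‖ = (p : ℝ)⁻¹ := by
      have e1 : (a - (a + (l - a) * (u : k))) * (b - (a + (l - a) * (u : k))) =
          ((a - l) * (u : k)) * ((a - l) * (u : k) - (a - b)) := by ring
      have h1 : ‖φ ((a - l) * (u : k))‖ = (p : ℝ)⁻¹ := by
        rw [map_mul, norm_mul, hφ _ hmemal, one_mul, map_natCast]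
        have h2 : ((u : ℕ) : ℚ_[p]) = (((u : ℕ) : ℤ) : ℚ_[p]) := by push_cast; rfl
        rw [h2]
        exact hnp
      have hp1 : (1 : ℝ) < p := by exact_mod_cast hp.out.one_lt
      have h3 : ‖φ ((a - l) * (u : k)) - φ (a - b)‖ = 1 := by
        have h4 : ‖φ ((a - l) * (u : k))‖ ≠ ‖-φ (a - b)‖ := by
          rw [norm_neg, hφ _ hmemab, h1]
          exact (inv_lt_one_of_one_lt₀ hp1).ne
        rw [sub_eq_add_neg, Padic.add_eq_max_of_ne h4, norm_neg, hφ _ hmemab, h1]
        exact max_eq_right (inv_lt_one_of_one_lt₀ hp1).le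
      rw [e1, map_mul, norm_mul, h1, map_sub, h3, mul_one]
    have hw0 : (a - (a + (l - a) * (u : k))) * (b - (a + (l - a) * (u : k))) ≠ 0 := by
      intro h0
      rw [h0, map_zero, norm_zero] at hw
      have : (0 : ℝ) < (p : ℝ)⁻¹ := by
        have := hp.out.pos
        positivity
      linarith
    obtain ⟨z, hz, c, hc⟩ := hZ _ hw0 hsq
    exact not_class φ (hφ z (hmemZ z hz)) hw hc
  · intro hsq
    have hw : ‖ψ ((a + (l - a) * (u : k) - l) * (a - l))‖ = (q : ℝ)⁻¹ := by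
      have e1 : (a + (l - a) * (u : k) - l) * (a - l) =
          (((1 - u : ℤ)) : k) * ((a - l) * (a - l)) := by push_cast; ring
      rw [e1, map_mul, map_mul, norm_mul, norm_mul, hψ _ hmemal, mul_one, mul_one, map_intCast]
      exact hnq
    have hw0 : (a + (l - a) * (u : k) - l) * (a - l) ≠ 0 := by
      intro h0
      rw [h0, map_zero, norm_zero] at hw
      have : (0 : ℝ) < (q : ℝ)⁻¹ := by
        have := hq.out.pos
        positivity
      linarith
    obtain ⟨z, hz, c, hc⟩ := hZ _ hw0 hsq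
    exact not_class ψ (hψ z (hmemZ z hz)) hw hc

end Pool.Agent.Zk26.HD
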