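import Mathlib
import Pool.Agent.Zk12.HD.Stm3
import Pool.Agent.Zk12.GT.Fin
import Pool.Agent.Zk26.GT.PolD
import Pool.Agent.Zk26.GT.Odd

/-!
# Project HD, part PFIX
-/

set_option autoImplicit false
set_option linter.all false

namespace Pool.Agent.Zk26.HD

open Polynomial IntermediateField Pool.Agent.TH954 Pool.Agent.Zk12.FG Pool.Agent.Zk12.HT
  Pool.Agent.Zk12.GT Pool.Agent.Zk12.HD

/-- **part PFIX** -/
theorem pfix (hSYMW : S_SYMW) : S_PFIX := by
  classical
  intro k₁ k F Ω B _ _ _ _ _ _ _ _ _ _ _ _ _ _ t₀ hS ht3 ht4 D hD hodd s X hX hXc N hN e he hsq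
  haveI : CharZero k := charZero_of_injective_algebraMap (algebraMap k₁ k).injective
  haveI : CharZero F := charZero_of_injective_algebraMap (algebraMap k F).injective
  haveI : CharZero Ω := charZero_of_injective_algebraMap (algebraMap F Ω).injective
  have hne : ∀ β : k, X - algebraMap k Ω β ≠ 0 := fun β h => hXc β (sub_eq_zero.1 h)
  obtain ⟨c, hc0, hcb, hcr⟩ := hSYMW k F Ω B s X hX hXc
  choose b hb1 hb2 using hcb
  have hb0 : ∀ β, b β ≠ 0 := by
    intro β h
    have h1 := hb2 β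
    rw [h, zero_pow two_ne_zero, mul_zero] at h1
    exact hne β h1
  obtain ⟨w, hw, hsq⟩ := hsq
  have hD0 : aeval t₀ D ≠ 0 := by
    intro h
    apply hD.ne_zero
    apply transcendental_iff_injective.1 ht3
    rw [h, map_zero]
  have hDΩ : algebraMap k Ω (aeval t₀ D) ≠ 0 := (_root_.map_ne_zero _).2 hD0
  -- the product of the classes
  have hprod : ∃ q : k, ∏ m, c (algebraMap k₁ k (e m)) = aeval t₀ D * q ^ 2 := by
    have hprodb : ∏ m, b (algebraMap k₁ k (e m)) ≠ 0 := Finset.prod_ne_zero_iff.2 fun m _ => hb0 _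
    rw [Finset.prod_congr rfl fun m _ => hb2 (algebraMap k₁ k (e m)), Finset.prod_mul_distrib,
      Finset.prod_pow, ← map_prod] at hsq
    have hw' : ∀ g, s.s g (w / ∏ m, b (algebraMap k₁ k (e m))) =
        w / ∏ m, b (algebraMap k₁ k (e m)) := by
      intro g
      rw [map_div₀, map_prod, hw]
      congr 1
      exact Finset.prod_congr rfl fun m _ => hb1 _ g
    obtain ⟨d, hd⟩ := fixed_sq s hw' (c := aeval t₀ D * ∏ m, c (algebraMap k₁ k (e m))) (by
      rw [div_pow, ← hsq, map_mul]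
      field_simp)
    refine ⟨d / aeval t₀ D, ?_⟩
    rw [div_pow, ← hd]
    field_simp
  obtain ⟨i, hi⟩ := Pool.Agent.Zk26.GT.polD k₁ k hS t₀ ht3 ht4 D hD
    (Pool.Agent.Zk26.GT.odd_noQuadratic hD hodd) (Fin N) e he (by rwa [Fintype.card_fin])
    (fun β => c (algebraMap k₁ k β)) (fun β => hc0 _) hprod (fun β γ hβγ => by
      obtain ⟨u, v, w, h1, h2⟩ := hcr (algebraMap k₁ k β) (algebraMap k₁ k γ)
        (fun h => hβγ ((algebraMap k₁ k).injective h))
      refine ⟨u, v, w, h1, ?_⟩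
      rw [map_sub, map_sub]
      exact h2)
  refine ⟨i, fun l l' hl hl' => ?_⟩
  obtain ⟨r, hr⟩ := hi l l' hl hl'
  refine ⟨b (algebraMap k₁ k (e l)) * b (algebraMap k₁ k (e l')) * algebraMap k Ω r, fun g => ?_, ?_⟩
  · rw [map_mul, map_mul, hb1, hb1, IsScalarTower.algebraMap_apply k F Ω, (s.s g).commutes]
  · rw [hb2 (algebraMap k₁ k (e l)), hb2 (algebraMap k₁ k (e l')), mul_pow, mul_pow, ← map_pow,
      pow_two r, ← hr]
    simp only [map_mul]
    ring

end Pool.Agent.Zk26.HD
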