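import Pool.Agent.Zk12.HD.Stm5

/-!
# Part FLD of project HDX: the fields generated by the roots of `f`
-/

set_option autoImplicit false
set_option linter.all false

open Polynomial

namespace Pool.Agent.Zk26.HD

/-- the fields `K₁ = k₁(roots of f)` and `E = k(roots of f)` -/
theorem fld_aux (k₁ k K₁ E : Type) [Field k₁] [CharZero k₁] (hfg : (⊤ : IntermediateField ℚ k₁).FG)
    [Field k] [Algebra k₁ k] (t : k) (ht : Transcendental k₁ t)
    (hgen : IntermediateField.adjoin k₁ {t} = ⊤) (f : k₁[X]) (hf : f ≠ 0)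
    [Field K₁] [CharZero K₁] [Field E] [Algebra k₁ K₁] [Algebra k E] [IsSplittingField k₁ K₁ f]
    [IsSplittingField k E (f.map (algebraMap k₁ k))] :
    ∃ (_ : Algebra K₁ E) (_ : Algebra k₁ E) (_ : IsScalarTower k₁ K₁ E) (_ : IsScalarTower k₁ k E),
    Normal k E ∧ (⊤ : IntermediateField ℚ K₁).FG ∧ Transcendental K₁ (algebraMap k E t) ∧
    IntermediateField.adjoin K₁ {algebraMap k E t} = ⊤ ∧ (f.map (algebraMap k₁ K₁)).Splits := by
  letI a2 : Algebra k₁ E := ((algebraMap k E).comp (algebraMap k₁ k)).toAlgebra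
  haveI t2 : IsScalarTower k₁ k E := IsScalarTower.of_algebraMap_eq fun x => rfl
  have hsE : (f.map (algebraMap k₁ E)).Splits := by
    have h := IsSplittingField.splits E (f.map (algebraMap k₁ k))
    rw [Polynomial.map_map, ← IsScalarTower.algebraMap_eq k₁ k E] at h
    exact h
  letI a3 : Algebra K₁ E := (IsSplittingField.lift K₁ f hsE).toRingHom.toAlgebra
  haveI t3 : IsScalarTower k₁ K₁ E := IsScalarTower.of_algebraMap_eq fun x =>
    ((IsSplittingField.lift K₁ f hsE).commutes x).symm
  haveI fd : FiniteDimensional k₁ K₁ := IsSplittingField.finiteDimensional K₁ f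
  refine ⟨a3, a2, t3, t2, Normal.of_isSplittingField (f.map (algebraMap k₁ k)), ?_, ?_, ?_,
    IsSplittingField.splits K₁ f⟩
  · rw [IntermediateField.fg_top_iff] at hfg ⊢
    haveI := hfg
    haveI : IsScalarTower ℚ k₁ K₁ := inferInstance
    exact Algebra.EssFiniteType.comp ℚ k₁ K₁
  · intro h
    apply ht
    have h1 : IsAlgebraic k₁ (algebraMap k E t) := by
      haveI : Algebra.IsAlgebraic k₁ K₁ := Algebra.IsAlgebraic.of_finite k₁ K₁
      exact IsAlgebraic.restrictScalars k₁ h
    exact (isAlgebraic_algebraMap_iff (algebraMap k E).injective).mp h1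
  · rw [eq_top_iff]
    set M : IntermediateField K₁ E := IntermediateField.adjoin K₁ {algebraMap k E t} with hM
    have hk : ∀ x : k, algebraMap k E x ∈ M := by
      have h1 : (⊤ : IntermediateField k₁ k) ≤
          (M.restrictScalars k₁).comap (IsScalarTower.toAlgHom k₁ k E) := by
        rw [← hgen, IntermediateField.adjoin_le_iff]
        rintro x hx
        rw [Set.mem_singleton_iff] at hx
        subst hx
        exact IntermediateField.mem_adjoin_simple_self K₁ _
      exact fun x => h1 (IntermediateField.mem_top : x ∈ ⊤)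
    intro x _
    have hx : x ∈ Algebra.adjoin k ((f.map (algebraMap k₁ k)).rootSet E) := by
      rw [IsSplittingField.adjoin_rootSet E (f.map (algebraMap k₁ k))]
      exact Algebra.mem_top
    induction hx using Algebra.adjoin_induction with
    | mem y hy =>
      have hy' : ((f.map (algebraMap k₁ K₁)).map (algebraMap K₁ E)).IsRoot y := by
        rw [Polynomial.map_map, ← IsScalarTower.algebraMap_eq k₁ K₁ E,
          IsScalarTower.algebraMap_eq k₁ k E, ← Polynomial.map_map]
        have := (Polynomial.mem_rootSet.mp hy).2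
        rwa [IsRoot, Polynomial.eval_map_algebraMap]
      obtain ⟨z, hz⟩ := (IsSplittingField.splits K₁ f).mem_range_of_isRoot
        ((Polynomial.map_ne_zero_iff (algebraMap k₁ K₁).injective).mpr hf) hy'
      rw [← hz]
      exact M.algebraMap_mem z
    | algebraMap r => exact hk r
    | add y z _ _ hy hz => exact M.add_mem (hy trivial) (hz trivial)
    | mul y z _ _ hy hz => exact M.mul_mem (hy trivial) (hz trivial)

theorem fld' : ∀ (k₁ k : Type) [Field k₁] [CharZero k₁], (⊤ : IntermediateField ℚ k₁).FG →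
  ∀ [Field k] [Algebra k₁ k] (t : k), Transcendental k₁ t → IntermediateField.adjoin k₁ {t} = ⊤ →
  ∀ f D : k₁[X], f ≠ 0 → Irreducible (D.map (algebraMap k₁ f.SplittingField)) →
  ∃ (K₁ E : Type) (_ : Field K₁) (_ : CharZero K₁) (_ : Field E) (_ : Algebra k E) (_ : Algebra K₁ E)
    (_ : Algebra k₁ K₁) (_ : Algebra k₁ E) (_ : IsScalarTower k₁ K₁ E) (_ : IsScalarTower k₁ k E),
    Normal k E ∧ (⊤ : IntermediateField ℚ K₁).FG ∧ Transcendental K₁ (algebraMap k E t) ∧
    IntermediateField.adjoin K₁ {algebraMap k E t} = ⊤ ∧ (f.map (algebraMap k₁ K₁)).Splits ∧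
    Irreducible (D.map (algebraMap k₁ K₁)) := by
  intro k₁ k _ _ hfg _ _ t ht hgen f D hf hD
  obtain ⟨a3, a2, t3, t2, h1, h2, h3, h4, h5⟩ :=
    fld_aux k₁ k f.SplittingField (f.map (algebraMap k₁ k)).SplittingField hfg t ht hgen f hf
  exact ⟨f.SplittingField, (f.map (algebraMap k₁ k)).SplittingField, inferInstance, inferInstance,
    inferInstance, inferInstance, a3, inferInstance, a2, t3, t2, h1, h2, h3, h4, h5, hD⟩

theorem fld : Pool.Agent.Zk12.HD.S_FLD := fld'

end Pool.Agent.Zk26.HD
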